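import Pool.Agent.Lib.MP_0e3b4a_gt.Iface

/-! # Module STRUC: the structure of horizontal curves -/

set_option autoImplicit false

namespace Pool.Agent.CutLoci.H22

open MeasureTheory Set Filter Topology

/-! ### Integrability -/

theorem int_bil {E F G : Type} [NormedAddCommGroup E] [NormedSpace ℝ E]
    [NormedAddCommGroup F] [NormedSpace ℝ F] [NormedAddCommGroup G] [NormedSpace ℝ G]
    (B : E →L[ℝ] F →L[ℝ] G) {f : ℝ → E} {k : ℝ → F} (hf : ContinuousOn f (Icc 0 1))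
    (hk : IntegrableOn k (Ioc 0 1)) : IntegrableOn (fun s => B (f s) (k s)) (Ioc 0 1) := by
  rw [← integrableOn_Icc_iff_integrableOn_Ioc] at hk ⊢
  obtain ⟨M, hM⟩ := isCompact_Icc.exists_bound_of_continuousOn hf
  refine B.integrable_of_bilin_of_bdd_left M (hf.aestronglyMeasurable measurableSet_Icc) ?_ hk
  exact (ae_restrict_mem measurableSet_Icc).mono fun x hx => hM x hx

theorem int_sub {E : Type} [NormedAddCommGroup E] {f : ℝ → E} (hf : IntegrableOn f (Ioc 0 1))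
    {t : ℝ} (ht : t ∈ Icc (0 : ℝ) 1) : IntervalIntegrable f volume 0 t := by
  rw [intervalIntegrable_iff_integrableOn_Ioc_of_le ht.1]
  exact hf.mono_set (Ioc_subset_Ioc_right ht.2)

/-! ### Uniqueness for vector valued equations -/

theorem uniqV (hU : UniqStatement) {Z : Type} [NormedAddCommGroup Z] [NormedSpace ℝ Z]
    [CompleteSpace Z] (k : ℝ → Z →L[ℝ] Z) (S : ℝ → Z) (hk : IntegrableOn k (Ioc 0 1))
    (hS : ContinuousOn S (Icc 0 1))
    (h : ∀ t ∈ Icc (0 : ℝ) 1, S t = ∫ s in (0 : ℝ)..t, k s (S s)) :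
    ∀ t ∈ Icc (0 : ℝ) 1, S t = 0 := by
  have key : ∃ (j : Z →L[ℝ] ((Z × ℝ) →L[ℝ] (Z × ℝ)))
      (m : (Z →L[ℝ] Z) →L[ℝ] ((Z × ℝ) →L[ℝ] (Z × ℝ))),
      (∀ z w, j z w = (w.2 • z, 0)) ∧ ∀ T w, m T w = (T w.1, 0) := by
    refine ⟨(ContinuousLinearMap.smulRightL ℝ (Z × ℝ) (Z × ℝ)
      (ContinuousLinearMap.snd ℝ Z ℝ)).comp (ContinuousLinearMap.inl ℝ Z ℝ),
      (ContinuousLinearMap.compL ℝ (Z × ℝ) Z (Z × ℝ) (ContinuousLinearMap.inl ℝ Z ℝ)).comp
      ((ContinuousLinearMap.compL ℝ (Z × ℝ) Z Z).flip (ContinuousLinearMap.fst ℝ Z ℝ)), ?_, ?_⟩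
    · intro z w
      simp
    · intro T w
      simp
  obtain ⟨j, m, hj, hm⟩ := key
  have hint : IntegrableOn (fun s => k s (S s)) (Ioc 0 1) := by
    have h1 := int_bil (ContinuousLinearMap.apply ℝ Z) hS hk
    exact h1
  have hmj : ∀ s, m (k s) * j (S s) = j (k s (S s)) := by
    intro s
    refine ContinuousLinearMap.ext fun w => ?_
    show m (k s) (j (S s) w) = j (k s (S s)) w
    rw [hj, hm, hj]
    simp
  have h0 := hU ((Z × ℝ) →L[ℝ] (Z × ℝ)) (fun s => m (k s)) (fun t => j (S t))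
    (m.integrable_comp hk) (j.continuous.comp_continuousOn hS) (Or.inr fun t ht => by
      simp only [hmj]
      rw [j.intervalIntegral_comp_comm (int_sub hint ht), ← h t ht])
  intro t ht
  have h1 := DFunLike.congr_fun (h0 t ht) ((0, 1) : Z × ℝ)
  rw [hj] at h1
  simpa using (Prod.mk.inj h1).1

theorem int_bil2 {E Z : Type} [NormedAddCommGroup E] [NormedSpace ℝ E] [NormedAddCommGroup Z]
    [NormedSpace ℝ Z] (K : E →L[ℝ] Z →L[ℝ] Z) {u : ℝ → E} {S : ℝ → Z}
    (hu : IntegrableOn u (Ioc 0 1)) (hS : ContinuousOn S (Icc 0 1)) :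
    IntegrableOn (fun s => K (u s) (S s)) (Ioc 0 1) :=
  int_bil (ContinuousLinearMap.apply ℝ Z) hS (K.integrable_comp hu)

theorem uniqK (hU : UniqStatement) {E Z : Type} [NormedAddCommGroup E] [NormedSpace ℝ E]
    [NormedAddCommGroup Z] [NormedSpace ℝ Z] [CompleteSpace Z] (K : E →L[ℝ] Z →L[ℝ] Z)
    (u : ℝ → E) (S : ℝ → Z) (hu : IntegrableOn u (Ioc 0 1)) (hS : ContinuousOn S (Icc 0 1))
    (h : ∀ t ∈ Icc (0 : ℝ) 1, S t = ∫ s in (0 : ℝ)..t, K (u s) (S s)) :
    ∀ t ∈ Icc (0 : ℝ) 1, S t = 0 :=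
  uniqV hU (fun s => K (u s)) S (K.integrable_comp hu) hS h

theorem exK {E g A : Type} [NormedAddCommGroup E] [NormedSpace ℝ E] [NormedAddCommGroup g]
    [NormedSpace ℝ g] [NormedRing A] [NormedAlgebra ℝ A] (br : E →L[ℝ] g →L[ℝ] g)
    (R : E →L[ℝ] A) : ∃ K : E →L[ℝ] ((g →L[ℝ] A) →L[ℝ] (g →L[ℝ] A)),
      ∀ (a : E) (Y : g →L[ℝ] A) (z : g), K a Y z = Y (br a z) + Y z * R a :=
  ⟨(ContinuousLinearMap.compL ℝ g g A).flip.comp br +
    (ContinuousLinearMap.compL ℝ g A A).comp ((ContinuousLinearMap.mul ℝ A).flip.comp R),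
    fun _ _ _ => rfl⟩

theorem conj (hU : UniqStatement) (hP : ProdStatement) {E g A : Type} [NormedAddCommGroup E]
    [NormedSpace ℝ E] [NormedAddCommGroup g] [NormedSpace ℝ g] [CompleteSpace g] [NormedRing A]
    [NormedAlgebra ℝ A] [CompleteSpace A] (br : E →L[ℝ] g →L[ℝ] g) (R : E →L[ℝ] A)
    (rep : g →L[ℝ] A) (u : ℝ → E) (hu : IntegrableOn u (Ioc 0 1)) (Γ : ℝ → A)
    (Ad : ℝ → g →L[ℝ] g) (hΓc : ContinuousOn Γ (Icc 0 1)) (hAc : ContinuousOn Ad (Icc 0 1))
    (hΓ : ∀ t ∈ Icc (0 : ℝ) 1, Γ t = 1 + ∫ s in (0 : ℝ)..t, Γ s * R (u s))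
    (hAd : ∀ t ∈ Icc (0 : ℝ) 1, ∀ z, Ad t z = z + ∫ s in (0 : ℝ)..t, Ad s (br (u s) z))
    (hrep : ∀ a z, R a * rep z = rep z * R a + rep (br a z)) :
    ∀ t ∈ Icc (0 : ℝ) 1, ∀ x, Γ t * rep x = rep (Ad t x) * Γ t := by
  set mu := ContinuousLinearMap.mul ℝ A with hmu
  have hR : IntegrableOn (fun s => R (u s)) (Ioc 0 1) := R.integrable_comp hu
  have hΓR : IntegrableOn (fun s => Γ s * R (u s)) (Ioc 0 1) := int_bil mu hΓc hR
  let S : ℝ → g →L[ℝ] A := fun t =>
    (mu (Γ t)).comp rep - ((mu.flip (Γ t)).comp rep).comp (Ad t)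
  have hSz : ∀ t z, S t z = Γ t * rep z - rep (Ad t z) * Γ t :=
    fun t z => rfl
  obtain ⟨K, hK⟩ := exK br R
  have hSc : ContinuousOn S (Icc 0 1) := by
    refine ContinuousOn.sub ?_ ?_
    · exact (mu.continuous.comp_continuousOn hΓc).clm_comp continuousOn_const
    · exact ((mu.flip.continuous.comp_continuousOn hΓc).clm_comp continuousOn_const).clm_comp hAc
  have hKS : IntegrableOn (fun s => K (u s) (S s)) (Ioc 0 1) := int_bil2 K hu hSc
  have hSeq : ∀ t ∈ Icc (0 : ℝ) 1, S t = ∫ s in (0 : ℝ)..t, K (u s) (S s) := by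
    intro t ht
    refine ContinuousLinearMap.ext fun z => ?_
    rw [ContinuousLinearMap.intervalIntegral_apply (int_sub hKS ht)]
    simp only [hK, hSz]
    have hx : IntegrableOn (fun s => Ad s (br (u s) z)) (Ioc 0 1) := by
      have h3 : IntegrableOn (fun s => br (u s) z) (Ioc 0 1) :=
        (br.flip z).integrable_comp hu
      exact int_bil (ContinuousLinearMap.id ℝ (g →L[ℝ] g)) hAc h3
    have hprod := hP g A A (mu.comp rep)
      (fun s => Ad s (br (u s) z)) (fun s => Γ s * R (u s)) z 1 hx hΓR t ht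
    rw [← hAd t ht z, ← hΓ t ht] at hprod
    have hcongr : ∫ s in (0 : ℝ)..t, ((mu.comp rep) (Ad s (br (u s) z))
          (1 + ∫ p in (0 : ℝ)..s, Γ p * R (u p)) +
        (mu.comp rep) (z + ∫ p in (0 : ℝ)..s, Ad p (br (u p) z)) (Γ s * R (u s))) =
        ∫ s in (0 : ℝ)..t, (rep (Ad s (br (u s) z)) * Γ s +
          rep (Ad s z) * (Γ s * R (u s))) := by
      refine intervalIntegral.integral_congr fun s hs => ?_
      rw [uIcc_of_le ht.1] at hs
      have hs' : s ∈ Icc (0 : ℝ) 1 := ⟨hs.1, hs.2.trans ht.2⟩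
      show (mu.comp rep) (Ad s (br (u s) z)) (1 + ∫ p in (0 : ℝ)..s, Γ p * R (u p)) +
        (mu.comp rep) (z + ∫ p in (0 : ℝ)..s, Ad p (br (u p) z)) (Γ s * R (u s)) = _
      rw [← hAd s hs' z, ← hΓ s hs']
      rfl
    rw [hcongr] at hprod
    have h4 : Γ t * rep z = rep z + ∫ s in (0 : ℝ)..t, Γ s * R (u s) * rep z := by
      have h3 : (mu.flip (rep z)) (Γ t) = (mu.flip (rep z)) 1 +
          ∫ s in (0 : ℝ)..t, (mu.flip (rep z)) (Γ s * R (u s)) := by
        conv_lhs => rw [hΓ t ht]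
        rw [map_add, (mu.flip (rep z)).intervalIntegral_comp_comm (int_sub hΓR ht)]
      have h5 : (mu.flip (rep z)) (1 : A) = rep z := one_mul _
      rw [h5] at h3
      exact h3
    have h6 : rep (Ad t z) * Γ t = rep z +
        ∫ s in (0 : ℝ)..t, (rep (Ad s (br (u s) z)) * Γ s +
          rep (Ad s z) * (Γ s * R (u s))) := by
      have h7 : (mu.comp rep) z (1 : A) = rep z := mul_one _
      rw [h7] at hprod
      exact hprod
    have hi1 : IntegrableOn (fun s => Γ s * R (u s) * rep z) (Ioc 0 1) :=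
      (mu.flip (rep z)).integrable_comp hΓR
    have hAz : ContinuousOn (fun s => Ad s z) (Icc 0 1) :=
      (ContinuousLinearMap.apply ℝ g z).continuous.comp_continuousOn hAc
    have hi2 : IntegrableOn (fun s => rep (Ad s (br (u s) z)) * Γ s +
          rep (Ad s z) * (Γ s * R (u s))) (Ioc 0 1) := by
      refine Integrable.add ?_ ?_
      · exact int_bil (mu.comp rep).flip hΓc hx
      · exact int_bil (mu.comp rep) hAz hΓR
    rw [h4, h6, add_sub_add_left_eq_sub,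
      ← intervalIntegral.integral_sub (int_sub hi1 ht) (int_sub hi2 ht)]
    refine intervalIntegral.integral_congr fun s _ => ?_
    show Γ s * R (u s) * rep z - (rep (Ad s (br (u s) z)) * Γ s +
          rep (Ad s z) * (Γ s * R (u s))) =
        Γ s * rep (br (u s) z) - rep (Ad s (br (u s) z)) * Γ s +
        (Γ s * rep z - rep (Ad s z) * Γ s) * R (u s)
    rw [mul_assoc, hrep, mul_add, sub_mul, ← mul_assoc, ← mul_assoc]
    abel
  have hS0 := uniqK hU K u S hu hSc hSeq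
  intro t ht x
  have h3 := DFunLike.congr_fun (hS0 t ht) x
  rw [hSz] at h3
  exact sub_eq_zero.1 h3

section

variable {g : Type} [NormedAddCommGroup g] [NormedSpace ℝ g] [FiniteDimensional ℝ g] {r : ℕ}

open Carnot

/-- Evaluation at `w` followed by the first projection. -/
noncomputable def evf (w : g × ℝ) : Aff g →L[ℝ] g :=
  (ContinuousLinearMap.fst ℝ g ℝ).comp (ContinuousLinearMap.apply ℝ (g × ℝ) w)

theorem evf_apply (w : g × ℝ) (T : Aff g) : evf w T = (T w).1 := rfl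

/-- Evaluation at `w` followed by the second projection. -/
noncomputable def evs (w : g × ℝ) : Aff g →L[ℝ] ℝ :=
  (ContinuousLinearMap.snd ℝ g ℝ).comp (ContinuousLinearMap.apply ℝ (g × ℝ) w)

theorem evs_apply (w : g × ℝ) (T : Aff g) : evs w T = (T w).2 := rfl

/-- `lin` as a continuous linear map. -/
noncomputable def linL (g : Type) [NormedAddCommGroup g] [NormedSpace ℝ g] :
    Aff g →L[ℝ] (g →L[ℝ] g) :=
  (ContinuousLinearMap.compL ℝ g (g × ℝ) g (ContinuousLinearMap.fst ℝ g ℝ)).comp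
    ((ContinuousLinearMap.compL ℝ g (g × ℝ) (g × ℝ)).flip (ContinuousLinearMap.inl ℝ g ℝ))

theorem linL_apply (T : Aff g) : linL g T = lin T := rfl

theorem lin_apply (T : Aff g) (z : g) : lin T z = (T (z, 0)).1 := rfl

theorem struc (hN : NilpStatement g r) (hG : GradeStatement g r) (hF : FlowStatement)
    (hU : UniqStatement) (hP : ProdStatement) (hI : InvStatement) : StrucStatement g r := by
  intro C u hu
  obtain ⟨hnil, -, hrep⟩ := hN C
  obtain ⟨-, -, hDX, -, -⟩ := hG C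
  obtain ⟨hΓc, hΓ⟩ : Sol C.R u (C.Gam u) := hF r (Aff g) C.R (C.s + 1) hnil u hu
  have hR : IntegrableOn (fun s => C.R (u s)) (Ioc 0 1) := C.R.integrable_comp hu
  have hΓR : IntegrableOn (fun s => C.Gam u s * C.R (u s)) (Ioc 0 1) :=
    int_bil (ContinuousLinearMap.mul ℝ (Aff g)) hΓc hR
  have hAc : ContinuousOn (C.Ad u) (Icc 0 1) := (linL g).continuous.comp_continuousOn hΓc
  have hL : ∀ {F : Type} [NormedAddCommGroup F] [NormedSpace ℝ F] [CompleteSpace F]
      (L : Aff g →L[ℝ] F), ∀ t ∈ Icc (0 : ℝ) 1, L (C.Gam u t) =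
        L 1 + ∫ s in (0 : ℝ)..t, L (C.Gam u s * C.R (u s)) := by
    intro F _ _ _ L t ht
    conv_lhs => rw [hΓ t ht]
    rw [map_add, L.intervalIntegral_comp_comm (int_sub hΓR ht)]
  have hRw : ∀ (a : EE r) (w : g × ℝ), C.R a w = (C.br (C.X a) w.1 + w.2 • C.D (C.X a), 0) :=
    fun a w => C.rep_apply _ _
  -- the second component
  have h2 : ∀ t ∈ Icc (0 : ℝ) 1, ∀ w, (C.Gam u t w).2 = w.2 := by
    have hPex : ∃ P : Aff g, ∀ w, P w = (0, w.2) :=
      ⟨(ContinuousLinearMap.inr ℝ g ℝ).comp (ContinuousLinearMap.snd ℝ g ℝ), fun w => by simp⟩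
    obtain ⟨P, hPw⟩ := hPex
    have hPR : ∀ a, P * C.R a = 0 := by
      intro a
      refine ContinuousLinearMap.ext fun w => ?_
      show P (C.R a w) = 0
      rw [hPw, hRw]
      rfl
    have hX := hU (Aff g) (fun s => C.R (u s)) (fun t => P * (C.Gam u t - 1)) hR
      (continuousOn_const.mul (hΓc.sub continuousOn_const)) (Or.inl fun t ht => by
        have h3 : ∀ s, P * (C.Gam u s - 1) * C.R (u s) = P * (C.Gam u s * C.R (u s)) := by
          intro s
          rw [mul_sub, sub_mul, mul_one, hPR, sub_zero, mul_assoc]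
        simp only [h3]
        have h4 := hL (ContinuousLinearMap.mul ℝ (Aff g) P) t ht
        simp only [ContinuousLinearMap.mul_apply'] at h4
        rw [mul_sub, h4, add_sub_cancel_left])
    intro t ht w
    have h5 := DFunLike.congr_fun (hX t ht) w
    have h6 : P ((C.Gam u t - 1) w) = 0 := h5
    rw [hPw] at h6
    have h7 : ((C.Gam u t - 1) w).2 = 0 := (Prod.mk.inj h6).2
    have h8 : ((C.Gam u t) w).2 - w.2 = 0 := h7
    linarith
  have h1 : ∀ t ∈ Icc (0 : ℝ) 1, ∀ z : g, ∀ c : ℝ,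
      C.Gam u t (z, c) = (C.Ad u t z + c • org (C.Gam u t), c) := by
    intro t ht z c
    refine Prod.ext ?_ (h2 t ht (z, c))
    have h3 : ((z, c) : g × ℝ) = (z, 0) + c • (0, 1) := by ext <;> simp
    conv_lhs => rw [h3, map_add, map_smul]
    rfl
  -- the equation for the linear part
  have hAd : ∀ t ∈ Icc (0 : ℝ) 1, ∀ z, C.Ad u t z =
      z + ∫ s in (0 : ℝ)..t, C.Ad u s (C.br (C.X (u s)) z) := by
    intro t ht z
    have h3 := hL (evf ((z, 0) : g × ℝ)) t ht
    have h4 : ∀ s, evf ((z, 0) : g × ℝ) (C.Gam u s * C.R (u s)) =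
        C.Ad u s (C.br (C.X (u s)) z) := by
      intro s
      show (C.Gam u s (C.R (u s) (z, 0))).1 = _
      rw [hRw]
      simp only [zero_smul, add_zero]
      rfl
    simp only [h4] at h3
    exact h3
  have hOrg : ∀ t ∈ Icc (0 : ℝ) 1, org (C.Gam u t) = C.W u u t := by
    intro t ht
    have h3 := hL (evf ((0, 1) : g × ℝ)) t ht
    have h4 : ∀ s, evf ((0, 1) : g × ℝ) (C.Gam u s * C.R (u s)) =
        C.Ad u s (C.X (u s)) := by
      intro s
      show (C.Gam u s (C.R (u s) (0, 1))).1 = _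
      rw [hRw]
      simp only [one_smul, map_zero, zero_add, hDX]
      rfl
    simp only [h4] at h3
    have h5 : evf ((0, 1) : g × ℝ) (1 : Aff g) = 0 := rfl
    rw [h5, zero_add] at h3
    exact h3
  -- the conjugation
  have hconj : ∀ t ∈ Icc (0 : ℝ) 1, ∀ x, C.Gam u t * C.rep x = C.rep (C.Ad u t x) * C.Gam u t :=
    conj hU hP (C.br.comp C.X) C.R C.rep u hu (C.Gam u) (C.Ad u) hΓc hAc hΓ hAd
      (fun a z => by
        show C.R a * C.rep z = C.rep z * C.R a + C.rep (C.br (C.X a) z)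
        rw [← hrep]
        show C.R a * C.rep z = C.rep z * C.R a + (C.R a * C.rep z - C.rep z * C.R a)
        abel)
  refine ⟨hΓc, hAc, fun t ht => ⟨h1 t ht, ?_, hconj t ht, hAd t ht, hOrg t ht, ?_⟩⟩
  · intro x y
    have h3 := DFunLike.congr_fun (hconj t ht x) ((y, 0) : g × ℝ)
    have h4 : C.Gam u t (C.rep x (y, 0)) = C.rep (C.Ad u t x) (C.Gam u t (y, 0)) := h3
    rw [C.rep_apply, h1 t ht y 0, C.rep_apply, h1 t ht _ 0] at h4
    simpa using (Prod.mk.inj h4).1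
  · obtain ⟨L, -, hLL⟩ := hI r (Aff g) C.R (C.s + 1) hnil u hu
    obtain ⟨hΓL, hLΓ, -⟩ := hLL t ht
    refine ⟨lin (L t), ?_, ?_⟩
    · refine ContinuousLinearMap.ext fun z => ?_
      show (L t ((C.Gam u t (z, 0)).1, 0)).1 = z
      have h3 : ((C.Gam u t (z, 0)).1, (0 : ℝ)) = C.Gam u t (z, 0) :=
        Prod.ext rfl (h2 t ht (z, 0)).symm
      rw [h3]
      have h4 := DFunLike.congr_fun hLΓ ((z, 0) : g × ℝ)
      have h5 : L t (C.Gam u t (z, 0)) = (z, 0) := h4
      rw [h5]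
    · refine ContinuousLinearMap.ext fun z => ?_
      show (C.Gam u t ((L t (z, 0)).1, 0)).1 = z
      have h4 := DFunLike.congr_fun hΓL ((z, 0) : g × ℝ)
      have h5 : C.Gam u t (L t (z, 0)) = (z, 0) := h4
      have h6 : (L t (z, 0)).2 = 0 := by
        rw [← h2 t ht (L t (z, 0)), h5]
      have h3 : ((L t (z, 0)).1, (0 : ℝ)) = L t (z, 0) := Prod.ext rfl h6.symm
      rw [h3, h5]

end

end Pool.Agent.CutLoci.H22
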